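import Pool.Agent.H717.PM.Stm

/-!
# PM717 POS: nonnegative weights versus positive weights
-/

set_option autoImplicit false

namespace Pool.Agent.H546.PM

open Pool.Agent.R39.PCG (WTree IsInterval)
open Pool.Agent.TH667.PCG (LeafTree tdist wlen)

theorem exists_adj {W : Type} {T : SimpleGraph W} (hT : T.IsTree) {x y : W} (hxy : x ≠ y) :
    ∃ z, T.Adj x z := by
  obtain ⟨p⟩ := hT.connected.preconnected x y
  cases p with
  | nil => exact absurd rfl hxy
  | cons h _ => exact ⟨_, h⟩

/-- the tree with the weights enlarged by `ε` -/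
def plus {V : Type} [Nontrivial V] (τ : WTree V) (ε : ℝ) (hε : 0 < ε) : LeafTree V where
  W := τ.W
  fin := τ.finite
  T := τ.T
  isTree := τ.isTree
  w := fun e => τ.w e + ε
  w_pos := fun e he => by
    have := τ.nonneg e he
    linarith
  leaf := τ.leaf
  leaf_inj := τ.leaf_injective
  leaf_iff := fun x => by
    rw [τ.range_leaf]
    obtain ⟨a, b, hab⟩ := exists_pair_ne V
    have hne : τ.leaf a ≠ τ.leaf b := fun h => hab (τ.leaf_injective h)
    have hfin : Finite τ.W := τ.finite
    have hadj : ∃ z, τ.T.Adj x z := by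
      by_cases hx : x = τ.leaf a
      · subst hx
        exact exists_adj τ.isTree hne
      · exact exists_adj τ.isTree hx
    have hpos : 0 < (τ.T.neighborSet x).ncard := by
      rw [Set.ncard_pos (Set.toFinite _)]
      obtain ⟨z, hz⟩ := hadj
      exact ⟨z, hz⟩
    constructor
    · intro h
      have h1 : (τ.T.neighborSet x).ncard = 1 := h
      omega
    · intro h
      have : (τ.T.neighborSet x).ncard = 1 := by omega
      exact this

/-- the number of edges of the path -/
noncomputable def len {V : Type} (τ : WTree V) (u v : V) : ℕ :=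
  (τ.isTree.existsUnique_path (τ.leaf u) (τ.leaf v)).choose.edges.length

theorem sum_add (l : List ℝ) (ε : ℝ) : (l.map (fun x => x + ε)).sum = l.sum + l.length * ε := by
  induction l with
  | nil => simp
  | cons a l ih =>
    rw [List.map_cons, List.sum_cons, List.sum_cons, List.length_cons, ih]
    push_cast
    ring

theorem plus_dist {V : Type} [Nontrivial V] (τ : WTree V) (ε : ℝ) (hε : 0 < ε) (u v : V) :
    (plus τ ε hε).dist u v = τ.d u v + len τ u v * ε := by
  have h := sum_add ((τ.isTree.existsUnique_path (τ.leaf u) (τ.leaf v)).choose.edges.map τ.w) ε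
  rw [List.map_map, List.length_map] at h
  exact h

theorem d_nonneg {V : Type} (τ : WTree V) (u v : V) : 0 ≤ τ.d u v := by
  unfold WTree.d
  apply List.sum_nonneg
  intro x hx
  rw [List.mem_map] at hx
  obtain ⟨e, he, rfl⟩ := hx
  exact τ.nonneg e (SimpleGraph.Walk.edges_subset_edgeSet _ he)

theorem exists_bound {ι : Type} [Finite ι] (f : ι → ℝ) : ∃ B : ℝ, 0 ≤ B ∧ ∀ i, f i < B := by
  cases nonempty_fintype ι
  refine ⟨∑ i, |f i| + 1, ?_, fun i => ?_⟩
  · have := Finset.sum_nonneg fun i (_ : i ∈ (Finset.univ : Finset ι)) => abs_nonneg (f i)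
    linarith
  · have := Finset.single_le_sum (f := fun i => |f i|) (fun i _ => abs_nonneg (f i))
      (Finset.mem_univ i)
    have := le_abs_self (f i)
    linarith

theorem exists_gap {ι : Type} [Finite ι] (f : ι → ℝ) : ∃ δ : ℝ, 0 < δ ∧ ∀ i, 0 < f i → δ ≤ f i := by
  by_cases h : ∃ i, 0 < f i
  · obtain ⟨i₀, h₀⟩ := h
    obtain ⟨i, hi, hmin⟩ := Set.exists_min_image {i | 0 < f i} f (Set.toFinite _) ⟨i₀, h₀⟩
    exact ⟨f i, hi, fun j hj => hmin j hj⟩
  · push Not at h
    exact ⟨1, one_pos, fun i hi => absurd hi (not_lt.2 (h i))⟩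

theorem t_pos (V : Type) [Finite V] [Nontrivial V] (G : SimpleGraph V)
    (hG : Pool.Agent.R39.PCG.IsPCG G) : Pool.Agent.H717.PR.IsPCG G := by
  obtain ⟨τ, I, hI, hadj⟩ := hG
  by_cases hE : ∃ u v, G.Adj u v
  · obtain ⟨u₀, v₀, h₀⟩ := hE
    have hfin : ({p : V × V | G.Adj p.1 p.2}).Finite := Set.toFinite _
    have hne : ({p : V × V | G.Adj p.1 p.2}).Nonempty := ⟨(u₀, v₀), h₀⟩
    obtain ⟨p, hp, hp'⟩ := Set.exists_min_image _ (fun p : V × V => τ.d p.1 p.2) hfin hne
    obtain ⟨q, hq, hq'⟩ := Set.exists_max_image _ (fun p : V × V => τ.d p.1 p.2) hfin hne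
    have hp1 : G.Adj p.1 p.2 := hp
    have hq1 : G.Adj q.1 q.2 := hq
    have hpI : τ.d p.1 p.2 ∈ I := (hadj _ _ (G.ne_of_adj hp1)).1 hp1
    have hqI : τ.d q.1 q.2 ∈ I := (hadj _ _ (G.ne_of_adj hq1)).1 hq1
    have hpq := hq' p hp
    obtain ⟨L, hL0, hL⟩ := exists_bound fun x : V × V => (len τ x.1 x.2 : ℝ)
    obtain ⟨δ₁, hδ₁, hg₁⟩ := exists_gap fun x : V × V => τ.d x.1 x.2 - τ.d q.1 q.2
    obtain ⟨δ₂, hδ₂, hg₂⟩ := exists_gap fun x : V × V => τ.d p.1 p.2 - τ.d x.1 x.2
    obtain ⟨δ, hδ, hd1, hd2⟩ : ∃ δ : ℝ, 0 < δ ∧ δ < δ₁ ∧ δ < δ₂ := by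
      refine ⟨min δ₁ δ₂ / 2, by positivity, ?_, ?_⟩
      · have := min_le_left δ₁ δ₂
        linarith
      · have := min_le_right δ₁ δ₂
        linarith
    have hε : 0 < δ / (L + 1) := by positivity
    have hle : ∀ u v : V, 0 ≤ (len τ u v : ℝ) * (δ / (L + 1)) ∧
        (len τ u v : ℝ) * (δ / (L + 1)) ≤ δ := by
      intro u v
      refine ⟨by positivity, ?_⟩
      have h1 := hL (u, v)
      simp only at h1
      rw [mul_div_assoc', div_le_iff₀ (by linarith)]
      nlinarith
    refine ⟨plus τ (δ / (L + 1)) hε, τ.d p.1 p.2, τ.d q.1 q.2 + δ, d_nonneg τ _ _, by linarith, ?_⟩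
    ext u v
    change G.Adj u v ↔ u ≠ v ∧ τ.d p.1 p.2 ≤ (plus τ (δ / (L + 1)) hε).dist u v ∧
      (plus τ (δ / (L + 1)) hε).dist u v ≤ τ.d q.1 q.2 + δ
    rw [plus_dist]
    obtain ⟨h1, h2⟩ := hle u v
    constructor
    · intro h
      have h3 := hp' (u, v) h
      have h4 := hq' (u, v) h
      simp only at h3 h4
      exact ⟨G.ne_of_adj h, by linarith, by linarith⟩
    · rintro ⟨huv, h3, h4⟩
      rw [hadj u v huv]
      refine hI.1.out hpI hqI ⟨?_, ?_⟩
      · by_contra h5
        push Not at h5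
        have h6 := hg₂ (u, v) (by simp only; linarith)
        simp only at h6
        linarith
      · by_contra h5
        push Not at h5
        have h6 := hg₁ (u, v) (by simp only; linarith)
        simp only at h6
        linarith
  · push Not at hE
    obtain ⟨B, hB0, hB⟩ := exists_bound fun x : V × V => (plus τ 1 one_pos).dist x.1 x.2
    refine ⟨plus τ 1 one_pos, B, B, hB0, le_rfl, ?_⟩
    ext u v
    change G.Adj u v ↔ u ≠ v ∧ B ≤ (plus τ 1 one_pos).dist u v ∧
      (plus τ 1 one_pos).dist u v ≤ B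
    constructor
    · intro h
      exact absurd h (hE u v)
    · rintro ⟨-, h, -⟩
      have := hB (u, v)
      simp only at this
      linarith

theorem exists_small {W : Type} [Finite W] {T : SimpleGraph W} (hT : T.IsTree) :
    ∃ x, (T.neighborSet x).ncard ≤ 1 := by
  classical
  obtain ⟨x₀⟩ := hT.connected.nonempty
  rcases subsingleton_or_nontrivial W with h | h
  · refine ⟨x₀, ?_⟩
    have : T.neighborSet x₀ = ∅ := by
      ext y
      simp only [SimpleGraph.mem_neighborSet, Set.mem_empty_iff_false, iff_false]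
      intro h1
      exact T.ne_of_adj h1 (Subsingleton.elim _ _)
    rw [this, Set.ncard_empty]
    exact zero_le_one
  · cases nonempty_fintype W
    obtain ⟨x, hx⟩ := hT.exists_vert_degree_one_of_nontrivial
    refine ⟨x, ?_⟩
    rw [Set.ncard_eq_toFinset_card']
    rw [← SimpleGraph.card_neighborFinset_eq_degree] at hx
    exact hx.le

theorem t_deg : (∀ G : SimpleGraph (Fin 0), ¬ Pool.Agent.H717.PR.IsPCG G) ∧
    ∀ G : SimpleGraph (Fin 1), Pool.Agent.H717.PR.IsPCG G := by
  constructor
  · rintro G ⟨t, _, _, _, _, _⟩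
    have := t.fin
    obtain ⟨x, hx⟩ := exists_small t.isTree
    obtain ⟨v, _⟩ := (t.leaf_iff x).2 hx
    exact v.elim0
  · intro G
    have hT : (⊥ : SimpleGraph (Fin 1)).IsTree :=
      { connected := ⟨fun u v => by rw [Subsingleton.elim u v]⟩
        isAcyclic := SimpleGraph.isAcyclic_bot }
    refine ⟨{ W := Fin 1, fin := inferInstance, T := ⊥, isTree := hT, w := fun _ => 1,
              w_pos := fun _ _ => one_pos, leaf := id, leaf_inj := Function.injective_id,
              leaf_iff := fun x => ?_ }, 0, 0, le_rfl, le_rfl, ?_⟩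
    · refine ⟨fun _ => ?_, fun _ => ⟨x, rfl⟩⟩
      have : (⊥ : SimpleGraph (Fin 1)).neighborSet x = ∅ := by
        ext y
        simp
      rw [this, Set.ncard_empty]
      exact zero_le_one
    · ext u v
      constructor
      · intro h
        exact absurd (Subsingleton.elim u v) (G.ne_of_adj h)
      · intro h
        exact absurd (Subsingleton.elim u v) h.1

end Pool.Agent.H546.PM
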